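import Pool.Agent.Q185.Obata.Example

/-!
# MP_590da2_gt: a nilpotent hypercomplex Lie algebra with non-abelian Obata holonomy

We give a `3`-step nilpotent real Lie algebra of dimension `32` with a hypercomplex structure
whose Obata connection has two curvature operators that do not commute.
-/

namespace Pool.Agent.Results.MP_590da2_gt.NonabelianObataHolonomy

open Pool.Q185.Obata Pool.Q185.Obata.G

/-- The element `1` of the first copy of `ℍ`. -/
def v₁ : G := G.mk ![1, 0, 0, 0, 0, 0, 0, 0, 0, 0, 0, 0, 0, 0, 0, 0]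

/-- The element `j` of the first copy of `ℍ`. -/
def v₂ : G := G.mk ![0, 1, 0, 0, 0, 0, 0, 0, 0, 0, 0, 0, 0, 0, 0, 0]

/-- The element `j` of the second copy of `ℍ`. -/
def v₃ : G := G.mk ![0, 0, 0, 1, 0, 0, 0, 0, 0, 0, 0, 0, 0, 0, 0, 0]

theorem curvature_ap (X Y Z : G) : curvature nab X Y Z =
    con X (con Y Z) - con Y (con X Z) - con ⁅X, Y⁆ Z := by
  simp [curvature, nab_ap]

theorem noncomm : curvature nab v₁ v₂ * curvature nab v₁ v₃ ≠
    curvature nab v₁ v₃ * curvature nab v₁ v₂ := by
  intro h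
  have h1 := LinearMap.congr_fun h v₁
  have h2 := congrFun h1 (14 : Fin 16)
  simp only [Module.End.mul_apply, curvature_ap] at h2
  simp [con, lie_def, br, v₁, v₂, v₃] at h2
  norm_num at h2

theorem lcs_eq_bot : LieModule.lowerCentralSeries ℝ G G 3 = ⊥ := by
  let C1 : LieSubmodule ℝ G G :=
    { carrier := {m | ∀ x : G, ⁅x, m⁆ = 0}
      add_mem' := by
        intro a b ha hb x
        rw [lie_add, ha x, hb x, add_zero]
      zero_mem' := fun x => lie_zero x
      smul_mem' := by
        intro r a ha x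
        rw [lie_smul, ha x, smul_zero]
      lie_mem := by
        intro y m hm x
        rw [hm y, lie_zero] }
  let C2 : LieSubmodule ℝ G G :=
    { carrier := {m | ∀ x y : G, ⁅x, ⁅y, m⁆⁆ = 0}
      add_mem' := by
        intro a b ha hb x y
        rw [lie_add, lie_add, ha x y, hb x y, add_zero]
      zero_mem' := fun x y => by rw [lie_zero, lie_zero]
      smul_mem' := by
        intro r a ha x y
        rw [lie_smul, lie_smul, ha x y, smul_zero]
      lie_mem := by
        intro z m hm x y
        rw [hm y z, lie_zero] }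
  have h1 : LieModule.lowerCentralSeries ℝ G G 1 ≤ C2 := by
    rw [LieModule.lowerCentralSeries_succ, LieSubmodule.lie_le_iff]
    intro a _ b _ x y
    exact threeStep x y a b
  have h2 : LieModule.lowerCentralSeries ℝ G G 2 ≤ C1 := by
    rw [LieModule.lowerCentralSeries_succ, LieSubmodule.lie_le_iff]
    intro a _ b hb x
    exact h1 hb x a
  rw [LieModule.lowerCentralSeries_succ, eq_bot_iff, LieSubmodule.lie_le_iff]
  intro a _ b hb
  exact h2 hb a

/-- There is a `3`-step nilpotent real Lie algebra of dimension `32` with a hypercomplex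
structure whose Obata connection has non-abelian holonomy algebra. -/
theorem result :
    ∃ (g : Type) (_ : LieRing g) (_ : LieAlgebra ℝ g) (J₁ J₂ J₃ : g →ₗ[ℝ] g)
      (nab : g →ₗ[ℝ] Module.End ℝ g),
      FiniteDimensional ℝ g ∧ Module.finrank ℝ g = 32 ∧
      LieRing.IsNilpotent g ∧ LieModule.lowerCentralSeries ℝ g g 3 = ⊥ ∧
      IsHypercomplex J₁ J₂ J₃ ∧
      (∀ X Y : g, nab X Y = obataFormula J₁ J₂ J₃ X Y) ∧
      IsTorsionFree nab ∧ IsParallel nab J₁ ∧ IsParallel nab J₂ ∧ IsParallel nab J₃ ∧
      ∃ A ∈ holonomyAlgebra nab, ∃ B ∈ holonomyAlgebra nab, A * B ≠ B * A := by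
  refine ⟨G, inferInstance, inferInstance, J₁, J₂, J₃, nab, inferInstance, finrank_eq,
    ?_, lcs_eq_bot, hyper, ?_, torsionFree, parallel₁, parallel₂, parallel₃,
    curvature nab v₁ v₂, curvature_mem_holonomyAlgebra _ _ _,
    curvature nab v₁ v₃, curvature_mem_holonomyAlgebra _ _ _, noncomm⟩
  · exact (LieModule.isNilpotent_iff ℝ G G).mpr ⟨3, lcs_eq_bot⟩
  · exact uniqueness hyper nab torsionFree parallel₁ parallel₂

end Pool.Agent.Results.MP_590da2_gt.NonabelianObataHolonomy
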